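import Mathlib
import Pool.Agent.H680R3.EX.Stmts

open MeasureTheory Polynomial Set

namespace Pool.Agent.H583R3.EX

open Pool.Agent.Helper404 (toP castQ kmC kmC_nonneg)
open Pool.Agent.H680R3.EX

lemma sum_Pr {n : ℕ} {M : Type*} [AddCommMonoid M] (f : Fin (n + 1) → Fin (n + 1) → M) :
    ∑ p : Pr n, f p.1.1 p.1.2 = ∑ a, ∑ b, if a < b then f a b else 0 := by
  rw [← Finset.sum_product', ← Finset.sum_filter]
  rw [Finset.univ_product_univ]
  exact (Finset.sum_subtype (Finset.univ.filter (fun p : Fin (n + 1) × Fin (n + 1) => p.1 < p.2))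
    (by intro x; simp) (fun p : Fin (n + 1) × Fin (n + 1) => f p.1 p.2)).symm

lemma card_Pr (n : ℕ) : 2 * Fintype.card (Pr n) = n * (n + 1) := by
  have h1 : Fintype.card (Pr n) = ∑ p : Pr n, 1 := by simp
  rw [h1, sum_Pr (fun _ _ => 1), Finset.sum_comm]
  have h2 : ∀ b : Fin (n + 1), (∑ a : Fin (n + 1), if a < b then 1 else 0) = (b : ℕ) := by
    intro b
    rw [← Finset.card_filter]
    have : Finset.univ.filter (fun a : Fin (n + 1) => a < b) = Finset.Iio b := by
      ext x; simp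
    rw [this, Fin.card_Iio]
  rw [Finset.sum_congr rfl (fun b _ => h2 b), Fin.sum_univ_eq_sum_range (fun i => i) (n + 1),
    mul_comm, Finset.sum_range_id_mul_two]
  simp [mul_comm]

lemma card_Pr_zero (n : ℕ) :
    (Finset.univ.filter (fun k : Pr n => k.1.1 = 0)).card = n := by
  rw [Finset.card_filter, sum_Pr (fun a _ => if a = 0 then 1 else 0)]
  rw [Finset.sum_eq_single (0 : Fin (n + 1))]
  · simp only [if_true]
    rw [← Finset.card_filter]
    have : Finset.univ.filter (fun a : Fin (n + 1) => 0 < a) = Finset.Ioi 0 := by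
      ext x; simp only [Finset.mem_filter, Finset.mem_univ, true_and, Finset.mem_Ioi]
    rw [this, Fin.card_Ioi]; simp
  · intro a _ ha
    apply Finset.sum_eq_zero
    intro b _
    simp [ha]
  · simp

/-- `P ∧ Q` -/
def wed {n : ℕ} (P Q : Fin (n + 1) → ℤ) : Pr n → ℤ :=
  fun p => P p.1.1 * Q p.1.2 - P p.1.2 * Q p.1.1

lemma sum_MM {n : ℕ} (P : Fin (n + 1) → ℤ) (k : Fin (n + 1)) :
    ∑ a, C (P a) * MM k a = hasseDeriv (k : ℕ) (toP P) := by
  unfold toP MM
  rw [map_sum]
  refine Finset.sum_congr rfl (fun a _ => ?_)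
  rw [C_mul_X_pow_eq_monomial (a := P a), hasseDeriv_monomial, ← C_mul_X_pow_eq_monomial, ← mul_assoc,
    ← C_mul]
  congr 2
  ring

lemma cauchyBinet {n : ℕ} (P Q : Fin (n + 1) → ℤ) (k : Pr n) :
    Lf AA k (wed P Q) =
      hasseDeriv (k.1.1 : ℕ) (toP P) * hasseDeriv (k.1.2 : ℕ) (toP Q) -
      hasseDeriv (k.1.2 : ℕ) (toP P) * hasseDeriv (k.1.1 : ℕ) (toP Q) := by
  obtain ⟨⟨k, l⟩, hkl⟩ := k
  simp only
  unfold Lf wed AA
  simp only
  rw [sum_Pr (fun a b => C (P a * Q b - P b * Q a) * ((MM k a * MM l b - MM k b * MM l a : ℤ[X])))]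
  set g : Fin (n + 1) → Fin (n + 1) → ℤ[X] := fun a b =>
    (C (P a) * MM k a) * (C (Q b) * MM l b) - (C (P a) * MM l a) * (C (Q b) * MM k b) with hg
  have h1 : ∀ a b, (if a < b then C (P a * Q b - P b * Q a) *
      ((MM k a * MM l b - MM k b * MM l a : ℤ[X])) else 0) =
      (if a < b then g a b else 0) + (if a < b then g b a else 0) := by
    intro a b
    split_ifs
    · simp only [hg, C_sub, C_mul]; ring
    · simp
  simp_rw [h1]
  simp_rw [Finset.sum_add_distrib]
  rw [Finset.sum_comm (f := fun a b => if a < b then g b a else 0)]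
  rw [← Finset.sum_add_distrib]
  have h2 : ∀ a, (∑ b, if a < b then g a b else 0) + (∑ b, if b < a then g a b else 0) =
      ∑ b, g a b := by
    intro a
    rw [← Finset.sum_add_distrib]
    refine Finset.sum_congr rfl (fun b _ => ?_)
    rcases lt_trichotomy a b with h | h | h
    · rw [if_pos h, if_neg (not_lt.2 h.le), add_zero]
    · subst h
      rw [if_neg (lt_irrefl _)]
      simp only [hg]; ring
    · rw [if_neg (not_lt.2 h.le), if_pos h, zero_add]
  rw [Finset.sum_congr rfl (fun a _ => h2 a)]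
  simp only [hg]
  simp_rw [Finset.sum_sub_distrib, ← Finset.mul_sum, ← Finset.sum_mul, sum_MM]

lemma eval_Lf {n : ℕ} (P Q : Fin (n + 1) → ℤ) (k : Pr n) (z : ℝ) :
    ((Lf AA k (wed P Q)).map (Int.castRingHom ℝ)).eval z =
      DD (k.1.1 : ℕ) P z * DD (k.1.2 : ℕ) Q z - DD (k.1.2 : ℕ) P z * DD (k.1.1 : ℕ) Q z := by
  rw [cauchyBinet]
  unfold DD
  simp

lemma wed_ne {n : ℕ} (P Q : Fin (n + 1) → ℤ) (h : ∃ a b, P a * Q b ≠ P b * Q a) :
    wed P Q ≠ 0 := by
  obtain ⟨a, b, hab⟩ := h
  intro h0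
  rcases lt_trichotomy a b with h | h | h
  · have := congrFun h0 ⟨(a, b), h⟩
    unfold wed at this
    simp only [Pi.zero_apply] at this
    exact hab (by linarith)
  · subst h; exact hab rfl
  · have := congrFun h0 ⟨(b, a), h⟩
    unfold wed at this
    simp only [Pi.zero_apply] at this
    exact hab (by linarith)

lemma AA_deg {n : ℕ} (k a : Pr n) : (AA k a).natDegree ≤ 2 * n := by
  have hM : ∀ k a : Fin (n + 1), (MM k a).natDegree ≤ n := by
    intro k a
    unfold MM
    exact (natDegree_C_mul_X_pow_le _ _).trans (by omega)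
  unfold AA
  refine (natDegree_sub_le _ _).trans (max_le ?_ ?_)
  · exact natDegree_mul_le.trans (by have := hM k.1.1 a.1.1; have := hM k.1.2 a.1.2; omega)
  · exact natDegree_mul_le.trans (by have := hM k.1.1 a.1.2; have := hM k.1.2 a.1.1; omega)

/-- crude bound for divided derivatives -/
lemma DD_bound {n : ℕ} (u : Fin (n + 1) → ℤ) (H z : ℝ) (hz : |z| ≤ 2) (hu : ∀ i, |(u i : ℝ)| ≤ H)
    (k : Fin (n + 1)) : |DD (k : ℕ) u z| ≤ ((n : ℝ) + 1) * 4 ^ n * H := by
  unfold DD
  rw [← sum_MM, Polynomial.map_sum, eval_finsetSum]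
  have hH : 0 ≤ H := (abs_nonneg _).trans (hu 0)
  have h1 : ∀ a : Fin (n + 1), |((C (u a) * MM k a).map (Int.castRingHom ℝ)).eval z| ≤ 4 ^ n * H := by
    intro a
    unfold MM
    rw [Polynomial.map_mul, Polynomial.map_mul, map_C, map_C, Polynomial.map_pow, map_X, eval_mul,
      eval_mul, eval_C, eval_C, eval_pow, eval_X, eq_intCast, eq_intCast, Int.cast_natCast]
    rw [abs_mul, abs_mul, abs_pow]
    have h2 : |(((a : ℕ).choose (k : ℕ) : ℕ) : ℝ)| ≤ 2 ^ n := by
      rw [abs_of_nonneg (by positivity)]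
      have : (a : ℕ).choose (k : ℕ) ≤ 2 ^ n :=
        (Nat.choose_le_two_pow _ _).trans (Nat.pow_le_pow_right (by norm_num) (by omega))
      exact_mod_cast this
    have h3 : |z| ^ ((a : ℕ) - (k : ℕ)) ≤ 2 ^ n := by
      calc |z| ^ ((a : ℕ) - (k : ℕ)) ≤ 2 ^ ((a : ℕ) - (k : ℕ)) :=
            pow_le_pow_left₀ (abs_nonneg _) hz _
        _ ≤ 2 ^ n := pow_le_pow_right₀ (by norm_num) (by omega)
    calc |(u a : ℝ)| * (|(((a : ℕ).choose (k : ℕ) : ℕ) : ℝ)| * |z| ^ ((a : ℕ) - (k : ℕ)))
        ≤ H * (2 ^ n * 2 ^ n) := by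
          gcongr
          exact hu a
      _ = 4 ^ n * H := by
          rw [← mul_pow]; norm_num; ring
  calc |∑ a, ((C (u a) * MM k a).map (Int.castRingHom ℝ)).eval z|
      ≤ ∑ a, |((C (u a) * MM k a).map (Int.castRingHom ℝ)).eval z| := Finset.abs_sum_le_sum_abs _ _
    _ ≤ ∑ _a : Fin (n + 1), 4 ^ n * H := Finset.sum_le_sum (fun a _ => h1 a)
    _ = ((n : ℝ) + 1) * 4 ^ n * H := by
        rw [Finset.sum_const, Finset.card_univ, Fintype.card_fin, nsmul_eq_mul]; push_cast; ring

/-- base weights -/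
noncomputable def bw {n : ℕ} (X : ℝ) (k : Pr n) : ℝ := if k.1.1 = 0 then X / X ^ n else X ^ 2

/-- coefficients -/
noncomputable def cw {n : ℕ} (A η : ℝ) (k : Pr n) : ℝ := if k.1.1 = 0 ∧ (k.1.2 : ℕ) = 1 then η else A

lemma prod_bw {n j : ℕ} (X : ℝ) (I : Fin j → Pr n) :
    ∏ b, bw X (I b) = (X / X ^ n) ^ (Finset.univ.filter (fun b : Fin j => (I b).1.1 = 0)).card *
      (X ^ 2) ^ (Finset.univ.filter (fun b : Fin j => ¬ (I b).1.1 = 0)).card := by
  unfold bw
  rw [Finset.prod_ite, Finset.prod_const, Finset.prod_const]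

lemma prod_bw_all {n : ℕ} (X : ℝ) (hX : 0 < X) : ∏ k : Pr n, bw X k = 1 := by
  unfold bw
  rw [Finset.prod_ite, Finset.prod_const, Finset.prod_const, card_Pr_zero]
  have h1 : (Finset.univ.filter (fun k : Pr n => ¬ k.1.1 = 0)).card = Fintype.card (Pr n) - n := by
    have := Finset.card_filter_add_card_filter_not (s := (Finset.univ : Finset (Pr n)))
      (p := fun k : Pr n => k.1.1 = 0)
    rw [card_Pr_zero, Finset.card_univ] at this
    omega
  rw [h1, div_pow, ← pow_mul, ← pow_mul, div_mul_eq_mul_div, ← pow_add,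
    div_eq_one_iff_eq (by positivity)]
  congr 1
  have h2 := card_Pr n
  have hle : n ≤ Fintype.card (Pr n) := by
    have h3 := Finset.card_le_univ (Finset.univ.filter (fun k : Pr n => k.1.1 = 0))
    rwa [card_Pr_zero n] at h3
  generalize Fintype.card (Pr n) = N at h2 hle ⊢
  obtain ⟨m, rfl⟩ := Nat.exists_eq_add_of_le hle
  rw [Nat.add_sub_cancel_left]
  nlinarith

set_option maxHeartbeats 4000000 in
theorem taskE (hB : TaskB) (hD : TaskD) : TaskE := by
  classical
  intro n hn ε A hε hA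
  set N := Fintype.card (Pr n) with hN
  have hNpos : 0 < N := by
    have := card_Pr n
    rw [← hN] at this
    by_contra h
    have : N = 0 := by omega
    nlinarith
  have hne : Nonempty (Pr n) := Fintype.card_pos_iff.1 hNpos
  set d := 2 * n with hd
  set D : ℝ := ((N * d : ℕ) : ℝ) with hDdef
  have hD0 : 0 < D := by rw [hDdef]; exact_mod_cast Nat.mul_pos hNpos (by omega)
  set κ : ℝ := kmC (4 * (D + 1) ^ 2) N with hκ
  have hκ0 : 0 ≤ κ := kmC_nonneg (by positivity) N
  set δ : ℝ := min 1 ((ε / (3 * (κ + 1))) ^ D) with hδ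
  have hδ0 : 0 < δ := lt_min one_pos (Real.rpow_pos_of_pos (by positivity) _)
  have hδ1 : δ ≤ 1 := min_le_left _ _
  have hδε : κ * δ ^ (1 / D) * 3 ≤ ε := by
    have h1 : δ ^ (1 / D) ≤ ε / (3 * (κ + 1)) := by
      calc δ ^ (1 / D) ≤ ((ε / (3 * (κ + 1))) ^ D) ^ (1 / D) :=
            Real.rpow_le_rpow hδ0.le (min_le_right _ _) (by positivity)
        _ = ε / (3 * (κ + 1)) := by
            rw [← Real.rpow_mul (by positivity), mul_one_div, div_self hD0.ne', Real.rpow_one]
    calc κ * δ ^ (1 / D) * 3 ≤ κ * (ε / (3 * (κ + 1))) * 3 := by gcongr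
      _ = ε * (κ / (κ + 1)) := by field_simp
      _ ≤ ε * 1 := by
          gcongr
          rw [div_le_one (by positivity)]; linarith
      _ = ε := mul_one ε
  set Cn : ℝ := ((n : ℝ) + 1) * 4 ^ n with hCn
  have hCn1 : 1 ≤ Cn := by
    rw [hCn]
    have : (1 : ℝ) ≤ 4 ^ n := one_le_pow₀ (by norm_num)
    nlinarith [(Nat.cast_nonneg n : (0 : ℝ) ≤ n)]
  set A' : ℝ := (2 * N * Cn ^ 2 * A ^ 2 + 1) / δ with hA'
  have hA'1 : 1 ≤ A' := by
    rw [hA', one_le_div hδ0]
    have : 0 ≤ 2 * (N : ℝ) * Cn ^ 2 * A ^ 2 := by positivity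
    linarith
  set B0 : ℝ := (D + 1) ^ (N * d) with hB0
  have hB0pos : 0 < B0 := by positivity
  set η' : ℝ := 1 / (B0 * A' ^ N) with hη'
  have hη'0 : 0 < η' := by positivity
  have hB01 : 1 ≤ B0 := by rw [hB0]; exact one_le_pow₀ (by linarith)
  have hη'1 : η' ≤ A' := by
    have h1 : 1 ≤ B0 * A' ^ N := one_le_mul_of_one_le_of_one_le hB01 (one_le_pow₀ hA'1)
    have : η' ≤ 1 := by rw [hη', div_le_one (by positivity)]; exact h1
    linarith
  refine ⟨δ * η' / N, by positivity, max 1 (B0 * A' ^ N), fun X hX => ?_⟩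
  have hX1 : 1 ≤ X := (le_max_left _ _).trans hX
  have hX2 : B0 * A' ^ N ≤ X := (le_max_right _ _).trans hX
  have hX0 : 0 < X := by linarith
  have hNR : (0 : ℝ) < N := by exact_mod_cast hNpos
  have hbw0 : ∀ k : Pr n, 0 < bw X k := by
    intro k; unfold bw; split_ifs <;> positivity
  have hcw0 : ∀ k : Pr n, 0 < cw A' η' k := by
    intro k; unfold cw; split_ifs <;> positivity
  have hcwA : ∀ k : Pr n, cw A' η' k ≤ A' := by
    intro k; unfold cw; split_ifs
    · exact hη'1
    · exact le_rfl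
  have hmain := hB (Pr n) AA d (by omega) (fun k i => AA_deg k i) (fun k => cw A' η' k * bw X k)
    (fun k => mul_pos (hcw0 k) (hbw0 k)) 1 one_pos (by
      intro j hj v hv
      obtain ⟨I, hI, hI2⟩ := hD n hn j hj v hv
      refine ⟨I, hI, ?_⟩
      rw [one_pow, one_mul, Finset.prod_mul_distrib]
      have hjN : j ≤ N := by
        have := hv.fintype_card_le_finrank
        rwa [Fintype.card_fin, Module.finrank_fintype_fun_eq_card] at this
      have hB0' : (1 : ℝ) / (((Fintype.card (Pr n) * d : ℕ) : ℝ) + 1) ^ (Fintype.card (Pr n) * d) = 1 / B0 := by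
        rw [hB0, hDdef, hN]
      rw [hB0']
      rcases hI2 with h | h
      · -- X-exponent negative
        set p := (Finset.univ.filter (fun b : Fin j => (I b).1.1 = 0)).card with hp
        have hpq : p + (Finset.univ.filter (fun b : Fin j => ¬ (I b).1.1 = 0)).card = j := by
          have := Finset.card_filter_add_card_filter_not (s := (Finset.univ : Finset (Fin j)))
            (p := fun b : Fin j => (I b).1.1 = 0)
          rwa [Finset.card_univ, Fintype.card_fin] at this
        set q := (Finset.univ.filter (fun b : Fin j => ¬ (I b).1.1 = 0)).card with hq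
        have h1 : ∏ b, bw X (I b) ≤ 1 / X := by
          rw [prod_bw, ← hp, ← hq, div_pow, ← pow_mul, ← pow_mul, div_mul_eq_mul_div, ← pow_add,
            div_le_div_iff₀ (by positivity) hX0, one_mul, ← pow_succ]
          apply pow_le_pow_right₀ hX1
          have : 2 * (p + q) + 1 ≤ (n + 1) * p := by rw [hpq]; exact h
          nlinarith
        have h2 : ∏ b, cw A' η' (I b) ≤ A' ^ N := by
          calc ∏ b, cw A' η' (I b) ≤ ∏ _b : Fin j, A' :=
                Finset.prod_le_prod (fun b _ => (hcw0 _).le) (fun b _ => hcwA _)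
            _ = A' ^ j := by simp
            _ ≤ A' ^ N := pow_le_pow_right₀ hA'1 hjN
        calc (∏ b, cw A' η' (I b)) * ∏ b, bw X (I b) ≤ A' ^ N * (1 / X) :=
              mul_le_mul h2 h1 (Finset.prod_nonneg (fun b _ => (hbw0 _).le)) (by positivity)
          _ ≤ 1 / B0 := by
              rw [mul_one_div, div_le_div_iff₀ hX0 hB0pos]; linarith
      · -- full case
        have hinj : Function.Injective I := by
          intro b b' hbb
          by_contra hne
          apply hI
          apply Matrix.det_zero_of_column_eq hne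
          intro a
          simp only [Matrix.of_apply, hbb]
        have hbij : Function.Bijective I :=
          (Fintype.bijective_iff_injective_and_card I).2 ⟨hinj, by rw [Fintype.card_fin]; exact h⟩
        rw [hbij.prod_comp (fun k => bw X k), prod_bw_all X hX0, mul_one,
          hbij.prod_comp (fun k => cw A' η' k)]
        have h01 : (0 : Fin (n + 1)) < ⟨1, by omega⟩ := by
          rw [Fin.lt_def]; simp
        set k0 : Pr n := ⟨((0 : Fin (n + 1)), ⟨1, by omega⟩), h01⟩ with hk0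
        rw [← Finset.mul_prod_erase Finset.univ _ (Finset.mem_univ k0)]
        have h2 : cw A' η' k0 = η' := by
          unfold cw; rw [if_pos]; simp [hk0]
        rw [h2]
        calc η' * ∏ k ∈ Finset.univ.erase k0, cw A' η' k
            ≤ η' * ∏ _k ∈ Finset.univ.erase k0, A' := by
              apply mul_le_mul_of_nonneg_left _ hη'0.le
              exact Finset.prod_le_prod (fun b _ => (hcw0 _).le) (fun b _ => hcwA _)
          _ = η' * A' ^ (N - 1) := by
              rw [Finset.prod_const, Finset.card_erase_of_mem (Finset.mem_univ _), Finset.card_univ]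
          _ ≤ η' * A' ^ N := by
              apply mul_le_mul_of_nonneg_left _ hη'0.le
              exact pow_le_pow_right₀ hA'1 (by omega)
          _ = 1 / B0 := by
              rw [hη']; field_simp) δ hδ0 hδ1
  refine le_trans (measure_mono ?_) (hmain.trans (ENNReal.ofReal_le_ofReal hδε))
  rintro z ⟨hz, P, Q, hPQ, hP, hQ, hP0, hQ0, hPQ0⟩
  refine ⟨hz, wed P Q, wed_ne P Q hPQ, fun k => ?_⟩
  rw [eval_Lf]
  have hz2 : |z| ≤ 2 := by rw [abs_le]; constructor <;> linarith [hz.1, hz.2]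
  have hCA : 1 ≤ Cn * A := one_le_mul_of_one_le_of_one_le hCn1 hA
  have hPd := DD_bound P (A * X) z hz2 hP
  have hQd := DD_bound Q (A * X) z hz2 hQ
  rw [← hCn] at hPd hQd
  have hNcard : (Fintype.card (Pr n) : ℝ) = (N : ℝ) := rfl
  rw [hNcard, mul_one]
  obtain ⟨⟨k, l⟩, hkl⟩ := k
  simp only
  unfold cw bw
  simp only
  have hδA : δ * A' = 2 * N * Cn ^ 2 * A ^ 2 + 1 := by
    rw [hA', mul_div_cancel₀ _ hδ0.ne']
  by_cases hk : k = 0
  · subst hk
    rw [if_pos rfl]
    by_cases hl : (l : ℕ) = 1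
    · rw [if_pos ⟨rfl, hl⟩, hl, Fin.val_zero]
      calc (N : ℝ) * |DD 0 P z * DD 1 Q z - DD 1 P z * DD 0 Q z|
          < N * (δ * η' / N * X / X ^ n) := by
            apply mul_lt_mul_of_pos_left hPQ0 hNR
        _ = δ * (η' * (X / X ^ n)) := by field_simp
    · rw [if_neg (by tauto), Fin.val_zero]
      have h1 : |DD 0 P z * DD (l : ℕ) Q z - DD (l : ℕ) P z * DD 0 Q z| ≤
          2 * Cn * A ^ 2 * (X / X ^ n) := by
        calc _ ≤ |DD 0 P z * DD (l : ℕ) Q z| + |DD (l : ℕ) P z * DD 0 Q z| := abs_sub _ _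
          _ = |DD 0 P z| * |DD (l : ℕ) Q z| + |DD (l : ℕ) P z| * |DD 0 Q z| := by
              rw [abs_mul, abs_mul]
          _ ≤ (A / X ^ n) * (Cn * (A * X)) + (Cn * (A * X)) * (A / X ^ n) := by
              gcongr
              · exact hQd l
              · exact hPd l
          _ = 2 * Cn * A ^ 2 * (X / X ^ n) := by ring
      have hXn : 0 < X / X ^ n := by positivity
      calc (N : ℝ) * |DD 0 P z * DD (l : ℕ) Q z - DD (l : ℕ) P z * DD 0 Q z|
          ≤ N * (2 * Cn * A ^ 2 * (X / X ^ n)) := by gcongr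
        _ < (2 * N * Cn ^ 2 * A ^ 2 + 1) * (X / X ^ n) := by
            have : (N : ℝ) * (2 * Cn * A ^ 2) ≤ 2 * N * Cn ^ 2 * A ^ 2 := by
              have h3 : Cn ≤ Cn ^ 2 := by nlinarith
              have h4 : 0 ≤ (N : ℝ) * A ^ 2 := by positivity
              nlinarith
            nlinarith
        _ = δ * (A' * (X / X ^ n)) := by rw [← hδA]; ring
  · rw [if_neg hk, if_neg (by tauto)]
    have h1 : |DD (k : ℕ) P z * DD (l : ℕ) Q z - DD (l : ℕ) P z * DD (k : ℕ) Q z| ≤
        2 * Cn ^ 2 * A ^ 2 * X ^ 2 := by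
      calc _ ≤ |DD (k : ℕ) P z * DD (l : ℕ) Q z| + |DD (l : ℕ) P z * DD (k : ℕ) Q z| := abs_sub _ _
        _ = |DD (k : ℕ) P z| * |DD (l : ℕ) Q z| + |DD (l : ℕ) P z| * |DD (k : ℕ) Q z| := by
            rw [abs_mul, abs_mul]
        _ ≤ (Cn * (A * X)) * (Cn * (A * X)) + (Cn * (A * X)) * (Cn * (A * X)) := by
            gcongr
            · exact hPd k
            · exact hQd l
            · exact hPd l
            · exact hQd k
        _ = 2 * Cn ^ 2 * A ^ 2 * X ^ 2 := by ring
    calc (N : ℝ) * |DD (k : ℕ) P z * DD (l : ℕ) Q z - DD (l : ℕ) P z * DD (k : ℕ) Q z|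
        ≤ N * (2 * Cn ^ 2 * A ^ 2 * X ^ 2) := by gcongr
      _ < (2 * N * Cn ^ 2 * A ^ 2 + 1) * X ^ 2 := by
          have : 0 < X ^ 2 := by positivity
          nlinarith
      _ = δ * (A' * X ^ 2) := by rw [← hδA]; ring

end Pool.Agent.H583R3.EX
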