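import Mathlib
import Pool.Agent.H680R3.EX.Stmts

open MeasureTheory Polynomial Set

namespace Pool.Agent.H583R3.EX

open Pool.Agent.Helper404 (toP castQ kmC)
open Pool.Agent.H680R3.EX

lemma coeff_toP {n : ℕ} (u : Fin (n + 1) → ℤ) (i : Fin (n + 1)) : (toP u).coeff (i : ℕ) = u i := by
  unfold toP
  rw [finsetSum_coeff]
  rw [Finset.sum_eq_single i]
  · simp
  · intro j _ hj
    rw [coeff_C_mul, coeff_X_pow, if_neg, mul_zero]
    intro h
    exact hj (Fin.ext h.symm)
  · simp

lemma natDegree_toP_le {n : ℕ} (u : Fin (n + 1) → ℤ) : (toP u).natDegree ≤ n := by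
  unfold toP
  apply natDegree_sum_le_of_forall_le
  intro i _
  exact (natDegree_C_mul_X_pow_le _ _).trans (by omega)

lemma natDegree_toP {n : ℕ} (u : Fin (n + 1) → ℤ) (h : u (Fin.last n) ≠ 0) :
    (toP u).natDegree = n := by
  apply le_antisymm (natDegree_toP_le u)
  apply le_natDegree_of_ne_zero
  have := coeff_toP u (Fin.last n)
  rw [Fin.val_last] at this
  rw [this]; exact h

lemma toP_of_poly {n : ℕ} (p : ℤ[X]) (hp : p.natDegree ≤ n) :
    toP (fun i : Fin (n + 1) => p.coeff i) = p := by
  ext k
  by_cases hk : k < n + 1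
  · exact coeff_toP (fun i : Fin (n + 1) => p.coeff i) ⟨k, hk⟩
  · rw [coeff_eq_zero_of_natDegree_lt (by omega : p.natDegree < k)]
    apply coeff_eq_zero_of_natDegree_lt
    exact (natDegree_toP_le _).trans_lt (by omega)

theorem taskG : TaskG := by
  intro n hn u hl h0 hm α hα
  have hlne : u (Fin.last n) ≠ 0 := by intro h; rw [h] at hl; norm_num at hl
  have hdeg := natDegree_toP u hlne
  have hPne : toP u ≠ 0 := by
    intro h
    have := coeff_toP u (Fin.last n)
    rw [h, coeff_zero] at this
    exact hlne this.symm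
  set c := (toP u).content with hc
  set p := (toP u).primPart with hp
  have hcp : toP u = C c * p := (toP u).eq_C_content_mul_primPart
  have hc0 : c ≠ 0 := by
    intro h; rw [h, C_0, zero_mul] at hcp; exact hPne hcp
  have hpdeg : p.natDegree = n := by
    rw [hp, natDegree_primPart, hdeg]
  have hcoef : ∀ i : Fin (n + 1), u i = c * p.coeff i := by
    intro i
    rw [← coeff_toP u i]
    conv_lhs => rw [hcp]
    rw [coeff_C_mul]
  have hprim : p.IsPrimitive := (toP u).isPrimitive_primPart
  have hαp : aeval α p = 0 := by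
    rw [hcp, map_mul, aeval_C] at hα
    rcases mul_eq_zero.1 hα with h | h
    · exfalso
      rw [algebraMap_int_eq, eq_intCast, Int.cast_eq_zero] at h
      exact hc0 h
    · exact h
  have hpne : p ≠ 0 := hprim.ne_zero
  -- parity facts
  have hlast := hcoef (Fin.last n)
  rw [Fin.val_last] at hlast
  have hcodd : c % 2 = 1 := by
    by_contra h
    have h2 : c % 2 = 0 := by omega
    obtain ⟨k, hk⟩ := Int.dvd_of_emod_eq_zero h2
    rw [hk, mul_assoc] at hlast
    omega
  have hpl : p.coeff n % 2 = 1 := by
    by_contra h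
    have h2 : p.coeff n % 2 = 0 := by omega
    obtain ⟨k, hk⟩ := Int.dvd_of_emod_eq_zero h2
    rw [hk, show c * (2 * k) = 2 * (c * k) by ring] at hlast
    omega
  have h2c : IsCoprime (2 : ℤ) c := by
    have : IsCoprime (2 : ℤ) (c % 2 + 2 * (c / 2)) := by
      rw [hcodd]; exact ⟨-(c / 2), 1, by ring⟩
    rwa [Int.emod_add_mul_ediv] at this
  have hirr : Irreducible p := by
    have hP : (Ideal.span {(2 : ℤ)}).IsPrime := by
      rw [Ideal.span_singleton_prime (by norm_num)]
      exact Int.prime_two
    apply irreducible_of_eisenstein_criterion hP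
    · rw [leadingCoeff, hpdeg, Ideal.mem_span_singleton]
      intro h; omega
    · intro k hk
      rw [degree_eq_natDegree hpne, hpdeg] at hk
      have hk' : k < n := by exact_mod_cast hk
      rw [Ideal.mem_span_singleton]
      have h1 := hcoef ⟨k, by omega⟩
      simp only at h1
      have h2 : (2 : ℤ) ∣ c * p.coeff k := by
        rw [← h1]
        by_cases hk0 : k = 0
        · subst hk0
          have : (⟨0, by omega⟩ : Fin (n + 1)) = 0 := rfl
          rw [this]; omega
        · have := hm ⟨k, by omega⟩ (by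
            intro h; apply hk0; simpa using congrArg Fin.val h) (by
            intro h; have := congrArg Fin.val h; simp at this; omega)
          omega
      exact h2c.dvd_of_dvd_mul_left h2
    · rw [degree_eq_natDegree hpne, hpdeg]; exact_mod_cast hn
    · rw [Ideal.span_singleton_pow, Ideal.mem_span_singleton]
      rintro ⟨k, hk⟩
      have h1 := hcoef 0
      rw [Fin.val_zero, hk] at h1
      rw [show c * (2 ^ 2 * k) = 4 * (c * k) by ring] at h1
      omega
    · exact hprim
  have hirrQ : Irreducible (p.map (Int.castRingHom ℚ)) :=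
    (IsPrimitive.Int.irreducible_iff_irreducible_map_cast hprim).1 hirr
  have hαQ : aeval α (p.map (Int.castRingHom ℚ)) = 0 := by
    rw [← algebraMap_int_eq, aeval_map_algebraMap]; exact hαp
  have hmin := minpoly.eq_of_irreducible hirrQ hαQ
  refine ⟨c, fun i => p.coeff i, hc0, hcoef, ?_, ?_, ?_, ?_⟩
  · rw [← hmin, natDegree_mul_C, natDegree_map_eq_of_injective (RingHom.injective_int _), hpdeg]
    · rw [ne_eq, inv_eq_zero, leadingCoeff_eq_zero]
      exact hirrQ.ne_zero
  · rw [toP_of_poly p hpdeg.le]; exact hprim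
  · rw [toP_of_poly p hpdeg.le]; exact hpdeg
  · rw [toP_of_poly p hpdeg.le]; exact hαp

end Pool.Agent.H583R3.EX
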